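import Pool.Agent.H958.RO.Stm
import Pool.Graph.R_seed8.W657.RD.PBas

/-!
# Upper bounds for path counts in the sparse random graph
-/

set_option autoImplicit false

namespace Pool.Agent.H282.RO.Lln

open Finset Filter Topology
open scoped Classical
open Pool.Agent.W830.RD (Om gle Pr Rlz)
open Pool.Agent.H958.RO

theorem minmax {α : Type} [LinearOrder α] {a b c d : α} (h1 : min a b = min c d)
    (h2 : max a b = max c d) : (a = c ∧ b = d) ∨ (a = d ∧ b = c) := by
  rcases le_total a b with h | h <;> rcases le_total c d with h' | h'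
  · rw [min_eq_left h, min_eq_left h'] at h1
    rw [max_eq_right h, max_eq_right h'] at h2
    exact Or.inl ⟨h1, h2⟩
  · rw [min_eq_left h, min_eq_right h'] at h1
    rw [max_eq_right h, max_eq_left h'] at h2
    exact Or.inr ⟨h1, h2⟩
  · rw [min_eq_right h, min_eq_left h'] at h1
    rw [max_eq_left h, max_eq_right h'] at h2
    exact Or.inr ⟨h2, h1⟩
  · rw [min_eq_right h, min_eq_right h'] at h1
    rw [max_eq_left h, max_eq_left h'] at h2
    exact Or.inl ⟨h2, h1⟩

theorem card_ed {n m : ℕ} (w : Fin (m + 1) → Fin n) (hw : Function.Injective w) :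
    (ed w).card = m := by
  unfold ed
  rw [Finset.card_image_of_injective, Finset.card_univ, Fintype.card_fin]
  intro i j hij
  have h1 := congrArg Prod.fst hij
  have h2 := congrArg Prod.snd hij
  rcases minmax h1 h2 with ⟨h3, _⟩ | ⟨h3, h4⟩
  · exact Fin.castSucc_injective _ (hw h3)
  · have h5 := congrArg Fin.val (hw h3)
    have h6 := congrArg Fin.val (hw h4)
    rw [Fin.val_castSucc, Fin.val_succ] at h5
    rw [Fin.val_castSucc, Fin.val_succ] at h6
    omega

theorem step_ne {n m : ℕ} (w : Fin (m + 1) → Fin n) (hw : Function.Injective w) (i : Fin m) :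
    w i.castSucc ≠ w i.succ := by
  intro h
  have h5 := congrArg Fin.val (hw h)
  rw [Fin.val_castSucc, Fin.val_succ] at h5
  omega

theorem ed_sub {n m : ℕ} (w : Fin (m + 1) → Fin n) (hw : Function.Injective w) :
    ed w ⊆ Om n := by
  intro e he
  obtain ⟨i, _, rfl⟩ := mem_image.1 he
  exact mem_filter.2 ⟨mem_univ _, min_lt_max.2 (step_ne w hw i)⟩

theorem path_iff {n m : ℕ} (E : Finset (Fin n × Fin n)) (hE : E ⊆ Om n)
    (w : Fin (m + 1) → Fin n) (hw : Function.Injective w) :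
    (∀ i : Fin m, (GG E).Adj (w i.castSucc) (w i.succ)) ↔ ed w ⊆ E := by
  constructor
  · intro h e he
    obtain ⟨i, _, rfl⟩ := mem_image.1 he
    obtain ⟨_, h2⟩ := h i
    rcases h2 with h2 | h2
    · have h4 : w i.castSucc < w i.succ := (mem_filter.1 (hE h2)).2
      rw [min_eq_left h4.le, max_eq_right h4.le]
      exact h2
    · have h4 : w i.succ < w i.castSucc := (mem_filter.1 (hE h2)).2
      rw [min_eq_right h4.le, max_eq_left h4.le]
      exact h2
  · intro h i
    have h1 : (min (w i.castSucc) (w i.succ), max (w i.castSucc) (w i.succ)) ∈ E :=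
      h (mem_image.2 ⟨i, mem_univ _, rfl⟩)
    refine ⟨step_ne w hw i, ?_⟩
    rcases le_total (w i.castSucc) (w i.succ) with h2 | h2
    · rw [min_eq_left h2, max_eq_right h2] at h1
      exact Or.inl h1
    · rw [min_eq_right h2, max_eq_left h2] at h1
      exact Or.inr h1

theorem PC_le {n m : ℕ} (E : Finset (Fin n × Fin n)) (hE : E ⊆ Om n)
    (F : Finset (Fin (m + 1) → Fin n)) (hF : ∀ w ∈ F, Function.Injective w) :
    PC E F ≤ (F.filter (fun w => ed w ⊆ E)).card := by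
  unfold PC
  refine Finset.card_le_card fun w hw => ?_
  rw [mem_filter] at hw ⊢
  exact ⟨hw.1, (path_iff E hE w (hF w hw.1)).1 hw.2⟩

/-- the bound for one `n` -/
theorem bound (h1 : S_CHEB) (h2 : S_PAIRS) (c a δ : ℝ) (n m : ℕ)
    (F : Finset (Fin (m + 1) → Fin n)) (hc : 0 < c) (ha : 0 ≤ a) (hδ : 0 < δ)
    (hF : ∀ w ∈ F, Function.Injective w) (hcard : (F.card : ℝ) ≤ a * (n : ℝ) ^ (m + 1))
    (hn : c < n) :
    Pr (c / n) n (fun E => (a * c ^ m + δ) * n < (PC E F : ℝ)) ≤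
      (2 ^ m * ((m + 1 : ℕ) : ℝ) ^ (m + 1) * (max 1 c) ^ m * (a * c ^ m) / δ ^ 2) * (1 / n) := by
  have hn0 : (0 : ℝ) < n := hc.trans hn
  have hp0 : 0 < c / n := div_pos hc hn0
  have hp1 : c / n < 1 := (div_lt_one hn0).2 hn
  obtain ⟨-, -, hmono, -, -, -⟩ := Pool.Agent.W657.RD.PBas.main (c / n) n hp0 hp1
  obtain ⟨p, hp⟩ : ∃ p, p = c / (n : ℝ) := ⟨_, rfl⟩
  obtain ⟨K, hK⟩ : ∃ K, K = 2 ^ m * ((m + 1 : ℕ) : ℝ) ^ (m + 1) * (max 1 c) ^ m := ⟨_, rfl⟩
  rw [← hp] at hp0 hp1 hmono ⊢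
  rw [← hK]
  have hK0 : 0 ≤ K := by rw [hK]; positivity
  have hmass : (F.card : ℝ) * p ^ m ≤ a * c ^ m * n := by
    have h3 : (F.card : ℝ) * p ^ m ≤ a * (n : ℝ) ^ (m + 1) * p ^ m :=
      mul_le_mul_of_nonneg_right hcard (pow_nonneg hp0.le _)
    have h4 : a * (n : ℝ) ^ (m + 1) * p ^ m = a * c ^ m * n := by
      rw [hp, div_pow, pow_succ]
      field_simp
    rwa [h4] at h3
  have hsum : ∑ w ∈ F, p ^ (ed w).card = (F.card : ℝ) * p ^ m := by
    rw [Finset.sum_congr rfl (fun w hw => by rw [card_ed w (hF w hw)] :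
      ∀ w ∈ F, p ^ (ed w).card = p ^ m), Finset.sum_const, nsmul_eq_mul]
  have hδn : 0 < δ * n := mul_pos hδ hn0
  have hev : Pr p n (fun E => (a * c ^ m + δ) * n < (PC E F : ℝ)) ≤
      Pr p n (fun E => (∑ w ∈ F, p ^ (ed w).card) + δ * n <
        ((F.filter (fun w => ed w ⊆ E)).card : ℝ)) := by
    apply hmono
    intro E hE h3
    have h4 : (PC E F : ℝ) ≤ ((F.filter (fun w => ed w ⊆ E)).card : ℝ) := by
      exact_mod_cast PC_le E hE F hF
    rw [hsum]
    linarith
  refine hev.trans ((h1 p n _ F ed (δ * n) hp0 hp1 (fun w hw => ed_sub w (hF w hw)) hδn).trans ?_)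
  -- the variance
  have hvar : ∀ w ∈ F, ∑ w' ∈ F, p ^ (ed w ∪ ed w').card ≤
      p ^ m * ∑ w' ∈ F, p ^ (ed w').card + K * p ^ m := by
    intro w hw
    rw [← Finset.sum_filter_add_sum_filter_not F (fun w' => Disjoint (ed w) (ed w'))]
    refine add_le_add ?_ ?_
    · rw [Finset.mul_sum]
      have h5 : ∑ w' ∈ F.filter (fun w' => Disjoint (ed w) (ed w')), p ^ (ed w ∪ ed w').card =
          ∑ w' ∈ F.filter (fun w' => Disjoint (ed w) (ed w')), p ^ m * p ^ (ed w').card := by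
        refine Finset.sum_congr rfl fun w' hw' => ?_
        rw [Finset.card_union_of_disjoint (mem_filter.1 hw').2, pow_add, card_ed w (hF w hw)]
      rw [h5]
      exact Finset.sum_le_sum_of_subset_of_nonneg (filter_subset _ _) fun w' _ _ => by positivity
    · have h6 := h2 c n m w hc hn (hF w hw)
      rw [← hp, ← hK] at h6
      refine le_trans ?_ h6
      refine Finset.sum_le_sum_of_subset_of_nonneg (fun w' hw' => ?_) fun w' _ _ => by positivity
      rw [mem_filter] at hw' ⊢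
      exact ⟨mem_filter.2 ⟨mem_univ _, hF w' hw'.1⟩, hw'.2⟩
  have htot : (∑ w ∈ F, ∑ w' ∈ F, p ^ (ed w ∪ ed w').card) - (∑ w ∈ F, p ^ (ed w).card) ^ 2 ≤
      K * (a * c ^ m * n) := by
    have h7 := Finset.sum_le_sum hvar
    rw [Finset.sum_const, nsmul_eq_mul, hsum] at h7
    rw [hsum]
    have h8 : K * ((F.card : ℝ) * p ^ m) ≤ K * (a * c ^ m * n) :=
      mul_le_mul_of_nonneg_left hmass hK0
    have h9 : (F.card : ℝ) * (p ^ m * ((F.card : ℝ) * p ^ m) + K * p ^ m) =
        ((F.card : ℝ) * p ^ m) ^ 2 + K * ((F.card : ℝ) * p ^ m) := by ring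
    rw [h9] at h7
    linarith
  have h10 : K * (a * c ^ m) / δ ^ 2 * (1 / n) = K * (a * c ^ m * n) / (δ * n) ^ 2 := by
    field_simp
  rw [h10]
  exact div_le_div_of_nonneg_right htot (by positivity)

theorem main (h1 : S_CHEB) (h2 : S_PAIRS) : S_LLN := by
  intro c a δ m F hc ha hδ hF hcard
  obtain ⟨M, hM⟩ : ∃ M, M = 2 ^ m * ((m + 1 : ℕ) : ℝ) ^ (m + 1) * (max 1 c) ^ m * (a * c ^ m) /
    δ ^ 2 := ⟨_, rfl⟩
  have hlim : Tendsto (fun n : ℕ => M * (1 / (n : ℝ))) atTop (𝓝 0) := by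
    have h3 := (tendsto_one_div_atTop_nhds_zero_nat (𝕜 := ℝ)).const_mul M
    rwa [mul_zero] at h3
  have hev : ∀ᶠ n : ℕ in atTop, c < n := by
    obtain ⟨N, hN⟩ := exists_nat_gt c
    filter_upwards [eventually_ge_atTop N] with n hn
    have : (N : ℝ) ≤ n := by exact_mod_cast hn
    linarith
  refine squeeze_zero' ?_ ?_ hlim
  · filter_upwards [hev] with n hn
    have hn0 : (0 : ℝ) < n := hc.trans hn
    have hp0 : 0 < c / n := div_pos hc hn0
    have hp1 : c / n < 1 := (div_lt_one hn0).2 hn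
    exact (Pool.Agent.W657.RD.PBas.main (c / n) n hp0 hp1).2.1 _
  · filter_upwards [hev] with n hn
    rw [hM]
    exact bound h1 h2 c a δ n m (F n) hc ha hδ (hF n) (hcard n) hn

end Pool.Agent.H282.RO.Lln
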